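import Mathlib

/-!
# Large sets which pairwise meet in few points have a small total size
-/

set_option autoImplicit false

namespace Pool.Agent.Helper73.SC

/-- Sets `f i` with `(c + 1) t |O| ≤ |f i| ^ 2`, which pairwise meet in at most `t` points, have
total size at most `(1 + 1 / c) |O|`. -/
theorem corradi {α ι : Type*} [DecidableEq α] (O : Finset α) (T : Finset ι)
    (f : ι → Finset α) (t c : ℕ) (hf : ∀ i ∈ T, f i ⊆ O)
    (hM : ∀ i ∈ T, ∀ j ∈ T, i ≠ j → (f i ∩ f j).card ≤ t)
    (hbig : ∀ i ∈ T, (c + 1) * (t * O.card) ≤ (f i).card ^ 2) :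
    c * ∑ i ∈ T, (f i).card ≤ (c + 1) * O.card := by
  classical
  set S : ℕ := ∑ i ∈ T, (f i).card with hS
  set n : ℕ := O.card with hn
  have hc : ∀ i ∈ T, (f i).card = ∑ a ∈ O, (if a ∈ f i then 1 else 0) := by
    intro i hi
    rw [← Finset.sum_filter, Finset.sum_const, smul_eq_mul, mul_one]
    congr 1
    ext a
    rw [Finset.mem_filter]
    exact ⟨fun h => ⟨hf i hi h, h⟩, fun h => h.2⟩
  set d : α → ℕ := fun a => ∑ i ∈ T, (if a ∈ f i then 1 else 0) with hd
  have hSd : S = ∑ a ∈ O, d a := by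
    rw [hS, Finset.sum_congr rfl hc, Finset.sum_comm]
  have hd2 : ∑ a ∈ O, d a ^ 2 = ∑ i ∈ T, ∑ j ∈ T, (f i ∩ f j).card := by
    have e1 : ∀ a, d a ^ 2 = ∑ i ∈ T, ∑ j ∈ T, (if a ∈ f i ∩ f j then 1 else 0) := by
      intro a
      rw [sq, hd, Finset.sum_mul_sum]
      refine Finset.sum_congr rfl (fun i _ => Finset.sum_congr rfl (fun j _ => ?_))
      by_cases h1 : a ∈ f i <;> by_cases h2 : a ∈ f j <;> simp [h1, h2]
    rw [Finset.sum_congr rfl (fun a _ => e1 a), Finset.sum_comm]
    refine Finset.sum_congr rfl (fun i hi => ?_)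
    rw [Finset.sum_comm]
    refine Finset.sum_congr rfl (fun j hj => ?_)
    rw [← Finset.sum_filter, Finset.sum_const, smul_eq_mul, mul_one]
    congr 1
    ext a
    rw [Finset.mem_filter]
    exact ⟨fun h => h.2, fun h => ⟨hf i hi (Finset.mem_inter.mp h).1, h⟩⟩
  have hle : ∑ a ∈ O, d a ^ 2 ≤ S + T.card ^ 2 * t := by
    rw [hd2]
    calc ∑ i ∈ T, ∑ j ∈ T, (f i ∩ f j).card ≤ ∑ i ∈ T, ((f i).card + T.card * t) := by
          refine Finset.sum_le_sum (fun i hi => ?_)
          calc ∑ j ∈ T, (f i ∩ f j).card ≤ ∑ j ∈ T, ((if j = i then (f i).card else 0) + t) := by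
                refine Finset.sum_le_sum (fun j hj => ?_)
                by_cases h : j = i
                · subst h
                  simp
                · rw [if_neg h, zero_add]
                  exact hM i hi j hj (Ne.symm h)
            _ = (f i).card + T.card * t := by
                rw [Finset.sum_add_distrib, Finset.sum_ite_eq' T i, if_pos hi, Finset.sum_const,
                  smul_eq_mul]
      _ = S + T.card ^ 2 * t := by
          rw [Finset.sum_add_distrib, Finset.sum_const, smul_eq_mul, ← hS]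
          ring
  have hcs : S ^ 2 ≤ n * ∑ a ∈ O, d a ^ 2 := by
    rw [hSd]
    exact sq_sum_le_card_mul_sum_sq
  have hT : T.card ^ 2 * ((c + 1) * (t * n)) ≤ S ^ 2 := by
    rcases T.eq_empty_or_nonempty with h | h
    · rw [h]
      simp
    · obtain ⟨i0, hi0, hmin⟩ := Finset.exists_min_image T (fun i => (f i).card) h
      have h1 : T.card * (f i0).card ≤ S := by
        calc T.card * (f i0).card = ∑ _i ∈ T, (f i0).card := by
              rw [Finset.sum_const, smul_eq_mul]
          _ ≤ S := Finset.sum_le_sum (fun i hi => hmin i hi)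
      calc T.card ^ 2 * ((c + 1) * (t * n)) ≤ T.card ^ 2 * (f i0).card ^ 2 :=
            Nat.mul_le_mul_left _ (hbig i0 hi0)
        _ = (T.card * (f i0).card) ^ 2 := by ring
        _ ≤ S ^ 2 := Nat.pow_le_pow_left h1 2
  have hfin : c * S * S ≤ (c + 1) * n * S := by
    have h1 : S ^ 2 ≤ n * (S + T.card ^ 2 * t) := hcs.trans (Nat.mul_le_mul_left n hle)
    have h2 : (c + 1) * S ^ 2 ≤ (c + 1) * n * S + T.card ^ 2 * ((c + 1) * (t * n)) := by
      calc (c + 1) * S ^ 2 ≤ (c + 1) * (n * (S + T.card ^ 2 * t)) := Nat.mul_le_mul_left _ h1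
        _ = _ := by ring
    have h3 : (c + 1) * S ^ 2 ≤ (c + 1) * n * S + S ^ 2 := h2.trans (Nat.add_le_add_left hT _)
    have h4 : (c + 1) * S ^ 2 = c * S * S + S ^ 2 := by ring
    omega
  rcases Nat.eq_zero_or_pos S with h0 | h0
  · rw [h0]
    simp
  · exact Nat.le_of_mul_le_mul_right hfin h0

/-- the case needed: `33 t |O| ≤ |f i| ^ 2` gives `32 Σ |f i| ≤ 33 |O|` -/
theorem corradi33 {α ι : Type*} [DecidableEq α] (O : Finset α) (T : Finset ι)
    (f : ι → Finset α) (t : ℕ) (hf : ∀ i ∈ T, f i ⊆ O)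
    (hM : ∀ i ∈ T, ∀ j ∈ T, i ≠ j → (f i ∩ f j).card ≤ t)
    (hbig : ∀ i ∈ T, 33 * t * O.card ≤ (f i).card ^ 2) :
    32 * ∑ i ∈ T, (f i).card ≤ 33 * O.card :=
  corradi O T f t 32 hf hM (fun i hi => by
    have := hbig i hi
    rw [mul_assoc] at this
    exact this)

end Pool.Agent.Helper73.SC
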